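import Pool.Agent.Q98.DF.Gen
import Pool.Agent.Q98.CG.Most

set_option autoImplicit false

/-!
Finitely generated groups with the same finite quotients, and numbers of subgroups of finite index.
-/

namespace Pool.Agent.Q134.PR

open Function Pool.Agent.Q98.DF Pool.Agent.Q98.CG CategoryTheory Opposite

/-- the subgroups of index at most `x` -/
def Sub (G : Type) [Group G] (x : ℕ) : Set (Subgroup G) := {K | K.index ≠ 0 ∧ K.index ≤ x}

/-- the number of the subgroups of index at most `x` -/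
noncomputable def num (G : Type) [Group G] (x : ℕ) : ℕ := (Sub G x).ncard

variable {G : Type} [Group G]

lemma sub_mono {x y : ℕ} (h : x ≤ y) : Sub G x ⊆ Sub G y := fun _ hK => ⟨hK.1, hK.2.trans h⟩

lemma index_finite (hfg : Group.FG G) (i : ℕ) (hi : i ≠ 0) :
    {K : Subgroup G | K.index = i}.Finite := by
  have := finite_hom hfg (Equiv.Perm (Fin i))
  refine Set.Finite.subset (Set.finite_range (fun p : (G →* Equiv.Perm (Fin i)) × Fin i =>
    (MulAction.stabilizer (Equiv.Perm (Fin i)) p.2).comap p.1)) ?_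
  intro K hK
  have hK' : Nat.card (G ⧸ K) = i := hK
  have : Finite (G ⧸ K) := Nat.finite_of_card_ne_zero (by rw [hK']; exact hi)
  let e : G ⧸ K ≃ Fin i := Finite.equivFinOfCardEq hK'
  refine ⟨((e.permCongrHom.toMonoidHom).comp (MulAction.toPermHom G (G ⧸ K)),
    e ((1 : G) : G ⧸ K)), ?_⟩
  ext g
  rw [Subgroup.mem_comap, MulAction.mem_stabilizer_iff]
  have h1 : ((e.permCongrHom.toMonoidHom).comp (MulAction.toPermHom G (G ⧸ K))) g •
      e ((1 : G) : G ⧸ K) = e (g • ((1 : G) : G ⧸ K)) := by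
    show e.permCongr (MulAction.toPerm g) (e ((1 : G) : G ⧸ K)) = _
    rw [Equiv.permCongr_apply, Equiv.symm_apply_apply]
    rfl
  rw [h1, e.apply_eq_iff_eq]
  rw [MulAction.Quotient.smul_coe, smul_eq_mul, mul_one, QuotientGroup.eq, mul_one, inv_mem_iff]

lemma sub_finite (hfg : Group.FG G) (x : ℕ) : (Sub G x).Finite := by
  refine Set.Finite.subset ((Set.finite_Iic x).biUnion (t := fun i =>
    {K : Subgroup G | i ≠ 0 ∧ K.index = i}) ?_) ?_
  · intro i _
    by_cases hi : i = 0
    · convert Set.finite_empty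
      ext K
      simp [hi]
    · exact (index_finite hfg i hi).subset fun K hK => hK.2
  · intro K hK
    rw [Set.mem_iUnion₂]
    exact ⟨K.index, hK.2, hK.1, rfl⟩

/-- the intersection of the subgroups of index at most `x` -/
def core (G : Type) [Group G] (x : ℕ) : Subgroup G := sInf (Sub G x)

lemma core_le {x : ℕ} {K : Subgroup G} (h : K ∈ Sub G x) : core G x ≤ K := sInf_le h

lemma core_anti {x y : ℕ} (h : x ≤ y) : core G y ≤ core G x := sInf_le_sInf (sub_mono h)

instance core_normal (x : ℕ) : (core G x).Normal := by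
  refine ⟨fun a ha g => ?_⟩
  unfold core at *
  rw [Subgroup.mem_sInf] at *
  intro K hK
  have h1 : K.comap (MulAut.conj g).toMonoidHom ∈ Sub G x := by
    have h2 : (K.comap (MulAut.conj g).toMonoidHom).index = K.index :=
      Subgroup.index_comap_of_surjective K (MulAut.conj g).surjective
    exact ⟨by rw [h2]; exact hK.1, by rw [h2]; exact hK.2⟩
  have h3 := ha _ h1
  rw [Subgroup.mem_comap] at h3
  exact h3

lemma core_finiteIndex (hfg : Group.FG G) (x : ℕ) : (core G x).FiniteIndex := by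
  haveI : Finite (Sub G x) := (sub_finite hfg x).to_subtype
  unfold core
  rw [sInf_eq_iInf']
  exact Subgroup.finiteIndex_iInf fun K => ⟨K.2.1⟩

variable {Λ Γ : Type} [Group Λ] [Group Γ]

/-- the transition maps -/
def tr (Γ : Type) [Group Γ] {x y : ℕ} (h : x ≤ y) : Γ ⧸ core Γ y →* Γ ⧸ core Γ x :=
  QuotientGroup.map _ _ (MonoidHom.id Γ) (fun a ha => core_anti h ha)

lemma tr_mk {x y : ℕ} (h : x ≤ y) (g : Γ) : tr Γ h (g : Γ ⧸ core Γ y) = (g : Γ ⧸ core Γ x) := rfl

lemma tr_surj {x y : ℕ} (h : x ≤ y) : Surjective (tr Γ h) := by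
  intro q
  obtain ⟨g, rfl⟩ := QuotientGroup.mk_surjective q
  exact ⟨(g : Γ ⧸ core Γ y), rfl⟩

/-- The subgroups of index at most `x` inject. -/
lemma num_le (hΛ : Group.FG Λ) {x : ℕ} (φ : Λ →* Γ ⧸ core Γ x)
    (hφ : Surjective φ) {P : Subgroup Λ → Prop} (hP : ∀ K, φ.ker ≤ K → P K) :
    num Γ x ≤ {K ∈ Sub Λ x | P K}.ncard := by
  unfold num
  refine Set.ncard_le_ncard_of_injOn (fun K => (K.map (QuotientGroup.mk' (core Γ x))).comap φ) ?_ ?_
    ((sub_finite hΛ x).subset fun K hK => hK.1)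
  · intro K hK
    have h1 : ((K.map (QuotientGroup.mk' (core Γ x))).comap φ).index = K.index := by
      rw [Subgroup.index_comap_of_surjective _ hφ, Subgroup.index_map_eq]
      · exact QuotientGroup.mk'_surjective _
      · rw [QuotientGroup.ker_mk']
        exact core_le hK
    exact ⟨⟨by rw [h1]; exact hK.1, by rw [h1]; exact hK.2⟩, hP _ (Subgroup.ker_le_comap _ _)⟩
  · intro K hK K' hK' h
    have h1 := Subgroup.comap_injective hφ h
    have h2 : ∀ K : Subgroup Γ, K ∈ Sub Γ x →
        (K.map (QuotientGroup.mk' (core Γ x))).comap (QuotientGroup.mk' (core Γ x)) = K := by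
      intro K hK
      rw [Subgroup.comap_map_eq, QuotientGroup.ker_mk', sup_eq_left]
      exact core_le hK
    rw [← h2 K hK, ← h2 K' hK', h1]

/-- compatible epimorphisms -/
lemma exists_system (hΛ : Group.FG Λ) (hΓ : Group.FG Γ)
    (h : ∀ (Q : Type) [Group Q] [Finite Q], (∃ f : Γ →* Q, Surjective f) → ∃ f : Λ →* Q, Surjective f) :
    ∃ φ : ∀ x, Λ →* Γ ⧸ core Γ x, (∀ x, Surjective (φ x)) ∧
      ∀ (x y : ℕ) (hxy : x ≤ y), (tr Γ hxy).comp (φ y) = φ x := by
  let F : ℕᵒᵖ ⥤ Type :=
    { obj := fun x => {φ : Λ →* Γ ⧸ core Γ x.unop // Surjective φ}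
      map := fun {x y} f => ↾(fun φ => (⟨(tr Γ (leOfHom f.unop)).comp φ.1,
        (tr_surj (leOfHom f.unop)).comp φ.2⟩ : {φ : Λ →* Γ ⧸ core Γ y.unop // Surjective φ}))
      map_id := by
        intro x
        refine ConcreteCategory.hom_ext _ _ fun φ => ?_
        apply Subtype.ext
        refine MonoidHom.ext fun a => ?_
        show tr Γ (le_refl _) (φ.1 a) = φ.1 a
        obtain ⟨g, hg⟩ := QuotientGroup.mk_surjective (φ.1 a)
        rw [← hg]
        rfl
      map_comp := by
        intro x y z f g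
        refine ConcreteCategory.hom_ext _ _ fun φ => ?_
        apply Subtype.ext
        refine MonoidHom.ext fun a => ?_
        show tr Γ (leOfHom (f ≫ g).unop) (φ.1 a) =
          tr Γ (leOfHom g.unop) (tr Γ (leOfHom f.unop) (φ.1 a))
        obtain ⟨g, hg⟩ := QuotientGroup.mk_surjective (φ.1 a)
        rw [← hg]
        rfl }
  haveI : ∀ x : ℕ, Finite (Γ ⧸ core Γ x) := fun x => by
    haveI := core_finiteIndex hΓ x
    exact Subgroup.finite_quotient_of_finiteIndex
  haveI : ∀ j : ℕᵒᵖ, Finite (F.obj j) := fun j => by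
    haveI := finite_hom hΛ (Γ ⧸ core Γ j.unop)
    exact Subtype.finite
  haveI : ∀ j : ℕᵒᵖ, Nonempty (F.obj j) := fun j => by
    obtain ⟨f, hf⟩ := h (Γ ⧸ core Γ j.unop) ⟨QuotientGroup.mk' _, QuotientGroup.mk'_surjective _⟩
    exact ⟨⟨f, hf⟩⟩
  obtain ⟨u, hu⟩ := nonempty_sections_of_finite_inverse_system F
  refine ⟨fun x => (u (op x)).1, fun x => (u (op x)).2, fun x y hxy => ?_⟩
  have h1 := hu (j := op y) (j' := op x) (homOfLE hxy).op
  exact congrArg Subtype.val h1

end Pool.Agent.Q134.PR
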