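import Pool.Agent.Q134.PR.Growth

set_option autoImplicit false

/-!
The gap.
-/

namespace Pool.Agent.Q134.PR

open Function Pool.Agent.Q98.DF

/-- a function without polynomial bound is often much larger than at the power `c < 1` -/
lemma exists_big {f : ℕ → ℕ} (hf : Monotone f) (hf0 : f 0 = 0)
    (hgr : ∀ C e, ∃ x, C * x ^ e < f x) {c : ℝ} (hc0 : 0 < c) (hc : c < 1) (d L X : ℕ)
    (hd : 1 ≤ d) : ∃ x ≥ X, f ⌊((d * x : ℕ) : ℝ) ^ c⌋₊ * (d * x) ^ L < f x := by
  by_contra hcon
  push Not at hcon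
  set c' : ℝ := (1 + c) / 2 with hc'
  have hc'1 : c' < 1 := by rw [hc']; linarith
  have hcc' : 0 < c' - c := by rw [hc']; linarith
  have hdR : (1 : ℝ) ≤ d := by exact_mod_cast hd
  obtain ⟨e, he⟩ := exists_nat_ge (2 * (L : ℝ) / (1 - c'))
  have he' : c' * e + 2 * L ≤ e := by
    have h1 : 0 < 1 - c' := by linarith
    rw [div_le_iff₀ h1] at he
    linarith
  set x₀ : ℕ := max (max X d) (max 2 ⌈(d : ℝ) ^ (c / (c' - c))⌉₊) with hx₀
  have hx1 : X ≤ x₀ := (le_max_left _ _).trans (le_max_left _ _)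
  have hx2 : d ≤ x₀ := (le_max_right _ _).trans (le_max_left _ _)
  have hx3 : 2 ≤ x₀ := (le_max_left _ _).trans (le_max_right _ _)
  have hx4 : ⌈(d : ℝ) ^ (c / (c' - c))⌉₊ ≤ x₀ := (le_max_right _ _).trans (le_max_right _ _)
  have key : ∀ x : ℕ, 1 ≤ x → (f x : ℝ) ≤ f x₀ * (x : ℝ) ^ e := by
    intro x
    induction x using Nat.strong_induction_on with
    | _ x ih =>
      intro hx
      have hxR : (1 : ℝ) ≤ x := by exact_mod_cast hx
      by_cases hxx : x ≤ x₀
      · have h1 : (f x : ℝ) ≤ f x₀ := by exact_mod_cast hf hxx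
        calc (f x : ℝ) ≤ f x₀ := h1
          _ = f x₀ * 1 := by ring
          _ ≤ f x₀ * (x : ℝ) ^ e := by
            refine mul_le_mul_of_nonneg_left (one_le_pow₀ hxR) (Nat.cast_nonneg _)
      · push Not at hxx
        set y : ℕ := ⌊((d * x : ℕ) : ℝ) ^ c⌋₊ with hy
        have hx0 : (0 : ℝ) < x := by linarith
        have h1 : ((d * x : ℕ) : ℝ) ^ c ≤ (x : ℝ) ^ c' := by
          push_cast
          rw [Real.mul_rpow (by linarith) hx0.le]
          have h2 : (d : ℝ) ^ c ≤ (x : ℝ) ^ (c' - c) := by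
            have h3 : (d : ℝ) ^ (c / (c' - c)) ≤ x := by
              refine (Nat.le_ceil _).trans ?_
              exact_mod_cast hx4.trans hxx.le
            calc (d : ℝ) ^ c = ((d : ℝ) ^ (c / (c' - c))) ^ (c' - c) := by
                  rw [← Real.rpow_mul (by linarith), div_mul_cancel₀ _ hcc'.ne']
              _ ≤ (x : ℝ) ^ (c' - c) :=
                  Real.rpow_le_rpow (Real.rpow_nonneg (by linarith) _) h3 hcc'.le
          calc (d : ℝ) ^ c * (x : ℝ) ^ c ≤ (x : ℝ) ^ (c' - c) * (x : ℝ) ^ c :=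
                mul_le_mul_of_nonneg_right h2 (Real.rpow_nonneg hx0.le _)
            _ = (x : ℝ) ^ c' := by rw [← Real.rpow_add hx0]; congr 1; ring
        have hdx : (1 : ℝ) ≤ ((d * x : ℕ) : ℝ) := by
          exact_mod_cast Nat.one_le_iff_ne_zero.2 (Nat.mul_ne_zero (by omega) (by omega))
        have hy1 : 1 ≤ y := by
          rw [hy, Nat.one_le_floor_iff]
          exact Real.one_le_rpow hdx hc0.le
        have hyx' : (y : ℝ) ≤ (x : ℝ) ^ c' :=
          (Nat.floor_le (Real.rpow_nonneg (by linarith) _)).trans h1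
        have hx2' : (1 : ℝ) < x := by
          have : 1 < x := by omega
          exact_mod_cast this
        have hyx : y < x := by
          have h3 : (x : ℝ) ^ c' < x := by
            calc (x : ℝ) ^ c' < (x : ℝ) ^ (1 : ℝ) := Real.rpow_lt_rpow_of_exponent_lt hx2' hc'1
              _ = x := Real.rpow_one _
          exact_mod_cast lt_of_le_of_lt hyx' h3
        have h4 := ih y hyx hy1
        have h5 := hcon x (by omega)
        have h6 : (f x : ℝ) ≤ f y * ((d : ℝ) * x) ^ L := by exact_mod_cast h5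
        have h7 : ((d : ℝ) * x) ^ L ≤ (x : ℝ) ^ (2 * L) := by
          rw [pow_mul]
          refine pow_le_pow_left₀ (by positivity) ?_ L
          rw [sq]
          refine mul_le_mul_of_nonneg_right ?_ hx0.le
          exact_mod_cast hx2.trans hxx.le
        have h8 : (y : ℝ) ^ e ≤ (x : ℝ) ^ (c' * e) := by
          rw [Real.rpow_mul hx0.le, Real.rpow_natCast]
          exact pow_le_pow_left₀ (Nat.cast_nonneg _) hyx' e
        calc (f x : ℝ) ≤ f y * ((d : ℝ) * x) ^ L := h6
          _ ≤ (f x₀ * (y : ℝ) ^ e) * (x : ℝ) ^ (2 * L) :=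
              mul_le_mul h4 h7 (by positivity) (by positivity)
          _ ≤ (f x₀ * (x : ℝ) ^ (c' * e)) * (x : ℝ) ^ (2 * L) := by gcongr
          _ = f x₀ * (x : ℝ) ^ (c' * e + 2 * L) := by
              rw [Real.rpow_add hx0, ← Real.rpow_natCast (x : ℝ) (2 * L)]
              push_cast
              ring
          _ ≤ f x₀ * (x : ℝ) ^ (e : ℝ) := by
              refine mul_le_mul_of_nonneg_left ?_ (Nat.cast_nonneg _)
              exact Real.rpow_le_rpow_of_exponent_le hxR he'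
          _ = f x₀ * (x : ℝ) ^ e := by rw [Real.rpow_natCast]
  obtain ⟨x, hx⟩ := hgr (f x₀) e
  rcases Nat.eq_zero_or_pos x with h | h
  · rw [h, hf0] at hx
    omega
  · have h1 := key x h
    have h2 : f x ≤ f x₀ * x ^ e := by exact_mod_cast h1
    omega

variable {Λ Γ : Type} [Group Λ] [Group Γ]

/-- **The gap.** -/
theorem gap (hΛ : Group.FG Λ) (hΓ : Group.FG Γ) (hgr : ∀ C e, ∃ x, C * x ^ e < num Γ x)
    (h : FQle Γ Λ ∨ FQle Λ Γ) {c : ℝ} (hc0 : 0 < c) (hc : c < 1) : SameFQ Λ Γ ↔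
      ∃ X : ℕ, ∀ x ≥ X, num Λ x ≤ num Γ x + num Γ ⌊(x : ℝ) ^ c⌋₊ ∧
        num Γ x ≤ num Λ x + num Γ ⌊(x : ℝ) ^ c⌋₊ := by
  constructor
  · intro hs
    refine ⟨0, fun x _ => ?_⟩
    rw [num_eq hΛ hΓ hs]
    exact ⟨Nat.le_add_right _ _, Nat.le_add_right _ _⟩
  · rintro ⟨X, hX⟩
    rcases h with h | h
    · -- more quotients
      have key : FQle Λ Γ := by
        intro Q _ _ hQ
        by_contra hQ'
        have hd : 1 ≤ Nat.card Q := Nat.card_pos
        obtain ⟨x, hx, hx2⟩ := exists_big (num_monotone hΓ) (num_zero Γ) hgr hc0 hc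
          (Nat.card Q) (Nat.log 2 (Nat.card Q)) X hd
        have h1 := many_extra hΛ hΓ h Q hQ hQ' x
        have h2 := (hX (Nat.card Q * x) (hx.trans (Nat.le_mul_of_pos_left _ hd))).1
        have h3 := Nat.mul_le_mul_right ((Nat.card Q * x) ^ Nat.log 2 (Nat.card Q)) h2
        rw [add_mul] at h3
        omega
      exact fun Q _ _ => ⟨key Q, h Q⟩
    · have key : FQle Γ Λ := by
        intro Q _ _ hQ
        by_contra hQ'
        have hd : 1 ≤ Nat.card Q := Nat.card_pos
        obtain ⟨x, hx, hx2⟩ := exists_big (num_monotone hΓ) (num_zero Γ) hgr hc0 hc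
          (Nat.card Q) (Nat.log 2 (Nat.card Q) + 1) (max X 2) hd
        have hxX : X ≤ x := (le_max_left _ _).trans hx
        have hx2' : 2 ≤ x := (le_max_right _ _).trans hx
        have hle : x ≤ Nat.card Q * x := Nat.le_mul_of_pos_left _ hd
        have h1 := many_extra hΓ hΛ h Q hQ hQ' x
        have h2 := (hX (Nat.card Q * x) (hxX.trans hle)).2
        have h3 := Nat.mul_le_mul_right ((Nat.card Q * x) ^ Nat.log 2 (Nat.card Q)) h2
        rw [add_mul] at h3
        have h4 := (hX x hxX).2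
        have h5 : num Γ ⌊(x : ℝ) ^ c⌋₊ ≤ num Γ ⌊((Nat.card Q * x : ℕ) : ℝ) ^ c⌋₊ := by
          refine num_monotone hΓ (Nat.floor_le_floor ?_)
          refine Real.rpow_le_rpow (Nat.cast_nonneg _) ?_ hc0.le
          exact_mod_cast hle
        have h6 : (Nat.card Q * x) ^ Nat.log 2 (Nat.card Q) + 1 ≤
            (Nat.card Q * x) ^ (Nat.log 2 (Nat.card Q) + 1) := by
          rw [pow_succ]
          have h7 : 1 ≤ (Nat.card Q * x) ^ Nat.log 2 (Nat.card Q) :=
            Nat.one_le_pow _ _ (by omega)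
          have h8 : (Nat.card Q * x) ^ Nat.log 2 (Nat.card Q) * 2 ≤
              (Nat.card Q * x) ^ Nat.log 2 (Nat.card Q) * (Nat.card Q * x) :=
            Nat.mul_le_mul_left _ (hx2'.trans hle)
          omega
        have h9 := Nat.mul_le_mul_left (num Γ ⌊((Nat.card Q * x : ℕ) : ℝ) ^ c⌋₊) h6
        rw [mul_add, mul_one] at h9
        omega
      exact fun Q _ _ => ⟨h Q, key Q⟩

end Pool.Agent.Q134.PR
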