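import Pool.Agent.Q134.PR.Gap

set_option autoImplicit false

/-!
Grothendieck pairs.
-/

namespace Pool.Agent.Q134.PR

open Function Pool.Agent.Q98.DF

variable {Γ : Type} [Group Γ]

/-- `H` maps onto every finite quotient of `Γ` -/
def Dense (H : Subgroup Γ) : Prop := ∀ N : Subgroup Γ, N.Normal → N.index ≠ 0 → H ⊔ N = ⊤

/-- every subgroup of finite index of `H` contains the trace of a subgroup of finite index of `Γ` -/
def Induced (H : Subgroup Γ) : Prop :=
  ∀ K : Subgroup H, K.index ≠ 0 → ∃ N : Subgroup Γ, N.index ≠ 0 ∧ N.subgroupOf H ≤ K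

lemma dense_surj {H : Subgroup Γ} (hH : Dense H) (N : Subgroup Γ) [N.Normal] (hN : N.index ≠ 0) :
    Surjective ((QuotientGroup.mk' N).comp H.subtype) := by
  rw [← MonoidHom.range_eq_top, MonoidHom.range_comp, Subgroup.range_subtype]
  have h1 : (H ⊔ N).map (QuotientGroup.mk' N) = ⊤ := by
    rw [hH N inferInstance hN]
    exact Subgroup.map_top_of_surjective _ (QuotientGroup.mk'_surjective N)
  rw [Subgroup.map_sup] at h1
  have h2 : N.map (QuotientGroup.mk' N) = ⊥ := by
    rw [Subgroup.map_eq_bot_iff, QuotientGroup.ker_mk']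
  rw [h2, sup_bot_eq] at h1
  exact h1

lemma comp_ker {H : Subgroup Γ} (N : Subgroup Γ) [N.Normal] :
    ((QuotientGroup.mk' N).comp H.subtype).ker = N.subgroupOf H := by
  ext a
  rw [MonoidHom.mem_ker, Subgroup.mem_subgroupOf]
  exact QuotientGroup.eq_one_iff (a : Γ)

lemma dense_le {H : Subgroup Γ} (hH : Dense H) : FQle Γ H := by
  intro Q _ _ ⟨f, hf⟩
  have hidx : f.ker.index ≠ 0 := by
    rw [Subgroup.index_ker, MonoidHom.range_eq_top.2 hf, Nat.card_congr Subgroup.topEquiv.toEquiv]
    exact Nat.card_pos.ne'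
  refine ⟨((QuotientGroup.quotientKerEquivOfSurjective f hf).toMonoidHom).comp
    ((QuotientGroup.mk' f.ker).comp H.subtype), ?_⟩
  exact (QuotientGroup.quotientKerEquivOfSurjective f hf).surjective.comp
    (dense_surj hH f.ker hidx)

/-- factoring through a surjection -/
lemma factor {A B Q : Type} [Group A] [Group B] [Group Q] (φ : A →* B) (hφ : Surjective φ)
    (f : A →* Q) (hf : Surjective f) (h : φ.ker ≤ f.ker) : ∃ g : B →* Q, Surjective g := by
  let g : B →* Q := (QuotientGroup.lift φ.ker f (fun a ha => h ha)).comp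
    (QuotientGroup.quotientKerEquivOfSurjective φ hφ).symm.toMonoidHom
  refine ⟨g, fun q => ?_⟩
  obtain ⟨a, rfl⟩ := hf q
  refine ⟨QuotientGroup.quotientKerEquivOfSurjective φ hφ (a : A ⧸ φ.ker), ?_⟩
  show (QuotientGroup.lift φ.ker f (fun a ha => h ha))
    ((QuotientGroup.quotientKerEquivOfSurjective φ hφ).symm
      (QuotientGroup.quotientKerEquivOfSurjective φ hφ (a : A ⧸ φ.ker))) = f a
  rw [MulEquiv.symm_apply_apply]
  rfl

/-- **Grothendieck pairs and finite quotients** -/
theorem induced_iff (hΓ : Group.FG Γ) {H : Subgroup Γ} (hfg : Group.FG H) (hH : Dense H) :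
    Induced H ↔ SameFQ H Γ := by
  constructor
  · intro hi Q _ _
    refine ⟨?_, dense_le hH Q⟩
    rintro ⟨f, hf⟩
    have hidx : f.ker.index ≠ 0 := by
      rw [Subgroup.index_ker, MonoidHom.range_eq_top.2 hf,
        Nat.card_congr Subgroup.topEquiv.toEquiv]
      exact Nat.card_pos.ne'
    obtain ⟨N, hN, hNK⟩ := hi f.ker hidx
    haveI : N.FiniteIndex := ⟨hN⟩
    have hN' : N.normalCore.index ≠ 0 := Subgroup.FiniteIndex.index_ne_zero
    obtain ⟨g, hg⟩ := factor _ (dense_surj hH N.normalCore hN') f hf (by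
      rw [comp_ker]
      refine le_trans ?_ hNK
      exact Subgroup.comap_mono (Subgroup.normalCore_le N))
    exact ⟨g.comp (QuotientGroup.mk' _), hg.comp (QuotientGroup.mk'_surjective _)⟩
  · intro hs K hK
    set x := K.index with hx
    have hidx : (core Γ x).index ≠ 0 := (core_finiteIndex hΓ x).index_ne_zero
    refine ⟨core Γ x, hidx, ?_⟩
    have h1 := num_le hfg ((QuotientGroup.mk' (core Γ x)).comp H.subtype)
      (dense_surj hH _ hidx)
      (P := fun K => ((QuotientGroup.mk' (core Γ x)).comp H.subtype).ker ≤ K) (fun _ h => h)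
    rw [← num_eq hfg hΓ hs x] at h1
    unfold num at h1
    have h2 := Set.eq_of_subset_of_ncard_le (fun K hK => hK.1) h1 (sub_finite hfg x)
    have h3 : K ∈ Sub H x := ⟨hK, le_refl _⟩
    rw [← h2] at h3
    rw [← comp_ker]
    exact h3.2

end Pool.Agent.Q134.PR
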