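import Mathlib

set_option autoImplicit false

/-!
Many small primes.
-/

namespace Pool.Agent.Q134.PR

open Finset

/-- the odd primes up to `N` -/
def oddP (N : ℕ) : Finset ℕ := (range (N + 1)).filter (fun p => p.Prime ∧ p ≠ 2)

lemma central_le (M : ℕ) (hM : 1 ≤ M) :
    Nat.centralBinom M ≤ (2 * M) ^ ((oddP (2 * M)).card + 1) := by
  have h1 := Nat.prod_pow_factorization_centralBinom M
  have h2 : ∏ p ∈ range (2 * M + 1), p ^ (Nat.centralBinom M).factorization p =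
      ∏ p ∈ (range (2 * M + 1)).filter Nat.Prime, p ^ (Nat.centralBinom M).factorization p := by
    rw [Finset.prod_filter]
    refine Finset.prod_congr rfl fun p _ => ?_
    split_ifs with hp
    · rfl
    · rw [Nat.factorization_eq_zero_of_not_prime _ hp, pow_zero]
  rw [← h1, h2]
  have h3 : ∀ p ∈ (range (2 * M + 1)).filter Nat.Prime,
      p ^ (Nat.centralBinom M).factorization p ≤ 2 * M := by
    intro p _
    rw [Nat.centralBinom_eq_two_mul_choose]
    exact Nat.pow_factorization_choose_le (by omega)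
  refine (Finset.prod_le_pow_card _ _ _ h3).trans ?_
  refine Nat.pow_le_pow_right (by omega) ?_
  have h4 : (range (2 * M + 1)).filter Nat.Prime ⊆ insert 2 (oddP (2 * M)) := by
    intro p hp
    rw [Finset.mem_filter] at hp
    rw [Finset.mem_insert]
    by_cases h : p = 2
    · exact Or.inl h
    · exact Or.inr (Finset.mem_filter.2 ⟨hp.1, hp.2, h⟩)
  exact (Finset.card_le_card h4).trans (Finset.card_insert_le _ _)

lemma exists_j (K : ℕ) : ∃ j, 3 ≤ j ∧ j ^ 2 * (8 * K + 18) < 2 ^ j := by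
  set u := 36 * (8 * K + 18) with hu
  have hu1 : u < 2 ^ u := Nat.lt_two_pow_self
  refine ⟨6 * u, by omega, ?_⟩
  have h1 : (2 : ℕ) ^ (6 * u) = (2 ^ u) ^ 6 := by rw [← pow_mul]; ring_nf
  rw [h1]
  have h2 : u ^ 6 < (2 ^ u) ^ 6 := Nat.pow_lt_pow_left hu1 (by norm_num)
  refine lt_of_le_of_lt ?_ h2
  have h3 : (6 * u) ^ 2 * (8 * K + 18) = u ^ 3 := by
    rw [hu]; ring
  rw [h3]
  exact Nat.pow_le_pow_right (by omega) (by norm_num)

/-- **many primes with a small product** -/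
theorem exists_primes (K : ℕ) : ∃ (a N : ℕ) (P : Fin a ⊕ Fin a → ℕ), Function.Injective P ∧
    (∀ i, (P i).Prime ∧ P i ≠ 2) ∧ ∏ i, P i ≤ 4 ^ N ∧ 1 ≤ N ∧ K * N < a * a := by
  obtain ⟨j, hj, hj2⟩ := exists_j K
  have hM : 4 ≤ 2 ^ (j - 1) := by
    calc 4 = 2 ^ 2 := by norm_num
      _ ≤ 2 ^ (j - 1) := Nat.pow_le_pow_right (by norm_num) (by omega)
  have h2M : 2 * 2 ^ (j - 1) = 2 ^ j := by
    rw [← pow_succ']
    congr 1
    omega
  set k := (oddP (2 ^ j)).card with hk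
  have h1 := Nat.four_pow_lt_mul_centralBinom (2 ^ (j - 1)) hM
  have h2 := central_le (2 ^ (j - 1)) (by omega)
  rw [h2M, ← hk] at h2
  have h3 : (2 : ℕ) ^ (2 ^ j) < 2 ^ (j * (k + 2)) := by
    calc (2 : ℕ) ^ (2 ^ j) = 4 ^ (2 ^ (j - 1)) := by
          rw [← h2M, pow_mul]; norm_num
      _ < 2 ^ (j - 1) * Nat.centralBinom (2 ^ (j - 1)) := h1
      _ ≤ 2 ^ (j - 1) * (2 ^ j) ^ (k + 1) := Nat.mul_le_mul_left _ h2
      _ ≤ 2 ^ j * (2 ^ j) ^ (k + 1) :=
          Nat.mul_le_mul_right _ (Nat.pow_le_pow_right (by norm_num) (by omega))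
      _ = 2 ^ (j * (k + 2)) := by rw [pow_mul]; ring
  have h4 : 2 ^ j < j * (k + 2) := (Nat.pow_lt_pow_iff_right (by norm_num)).1 h3
  set a := k / 2 with ha
  have hka : k ≤ 2 * a + 1 := by omega
  have h5 : 2 ^ j < j * (2 * a + 3) := lt_of_lt_of_le h4 (Nat.mul_le_mul_left _ (by omega))
  have hcard : Fintype.card (Fin a ⊕ Fin a) ≤ Fintype.card (oddP (2 ^ j)) := by
    rw [Fintype.card_sum, Fintype.card_fin, Fintype.card_coe]
    omega
  obtain ⟨f⟩ := Function.Embedding.nonempty_of_card_le hcard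
  refine ⟨a, 2 ^ j, fun i => (f i : ℕ), fun i i' h => f.injective (Subtype.ext h), fun i => ?_,
    ?_, Nat.one_le_two_pow, ?_⟩
  · exact (Finset.mem_filter.1 (f i).2).2
  · have h6 : ∏ i, ((f i : ℕ)) = ∏ p ∈ univ.map (f.trans (Function.Embedding.subtype _)), p := by
      rw [Finset.prod_map]
      rfl
    rw [h6]
    refine le_trans ?_ (primorial_le_four_pow (2 ^ j))
    unfold primorial
    refine Finset.prod_le_prod_of_subset_of_one_le' ?_ ?_
    · intro p hp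
      rw [Finset.mem_map] at hp
      obtain ⟨i, -, rfl⟩ := hp
      have h7 := Finset.mem_filter.1 (f i).2
      exact Finset.mem_filter.2 ⟨h7.1, h7.2.1⟩
    · intro p hp _
      exact (Finset.mem_filter.1 hp).2.one_lt.le
  · by_contra hcon
    push Not at hcon
    have h7 : 2 ^ j * 2 ^ j < (j * (2 * a + 3)) * (j * (2 * a + 3)) := Nat.mul_lt_mul'' h5 h5
    have h8 : (2 * a + 3) * (2 * a + 3) ≤ 8 * (a * a) + 18 := by
      have : (0 : ℤ) ≤ (2 * (a : ℤ) - 3) ^ 2 := sq_nonneg _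
      zify
      nlinarith
    have h9 : (2 * a + 3) * (2 * a + 3) ≤ 2 ^ j * (8 * K + 18) := by
      have h10 : 1 ≤ 2 ^ j := Nat.one_le_two_pow
      nlinarith
    have h11 : (j * (2 * a + 3)) * (j * (2 * a + 3)) ≤ 2 ^ j * (j ^ 2 * (8 * K + 18)) := by
      calc (j * (2 * a + 3)) * (j * (2 * a + 3)) = j ^ 2 * ((2 * a + 3) * (2 * a + 3)) := by ring
        _ ≤ j ^ 2 * (2 ^ j * (8 * K + 18)) := Nat.mul_le_mul_left _ h9
        _ = 2 ^ j * (j ^ 2 * (8 * K + 18)) := by ring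
    have h12 : 2 ^ j * (j ^ 2 * (8 * K + 18)) < 2 ^ j * 2 ^ j :=
      Nat.mul_lt_mul_of_pos_left hj2 (by positivity)
    omega

end Pool.Agent.Q134.PR
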