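import Pool.Agent.Q134.PR.Sub
import Pool.Agent.Q134.PR.Primes

set_option autoImplicit false

/-!
`SL(n,ℤ)` has more than polynomially many subgroups of finite index.
-/

namespace Pool.Agent.Q134.PR

open Function Matrix Pool.Agent.Q98.DF Pool.Agent.H185.ZM

variable {n : ℕ} {ι : Type} [Fintype ι] [DecidableEq ι]

/-- the elements that act on the vector `e_i` through signs in `E` -/
def KE (i : Fin n) (P : ι → ℕ) (E : Subgroup (ι → ℤˣ)) : Subgroup (SLZ n) where
  carrier := {g | ∃ ε ∈ E, ∀ q, act (P q) g (Pi.single i 1) =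
    (((ε q : ℤˣ) : ℤ) : ZMod (P q)) • (Pi.single i 1 : Fin n → ZMod (P q))}
  mul_mem' := by
    rintro g h ⟨ε, hε, hg⟩ ⟨δ, hδ, hh⟩
    refine ⟨ε * δ, E.mul_mem hε hδ, fun q => ?_⟩
    rw [act_mul, hh, act_smul, hg, smul_smul, Pi.mul_apply]
    push_cast
    rw [mul_comm]
  one_mem' := ⟨1, E.one_mem, fun q => by rw [act_one, Pi.one_apply]; simp⟩
  inv_mem' := by
    rintro g ⟨ε, hε, hg⟩
    refine ⟨ε, hε, fun q => ?_⟩
    have h1 : act (P q) g⁻¹ (act (P q) g (Pi.single i 1)) = Pi.single i 1 := by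
      rw [← act_mul, inv_mul_cancel, act_one]
    rw [hg, act_smul] at h1
    have h2 : (((ε q : ℤˣ) : ℤ) : ZMod (P q)) * (((ε q : ℤˣ) : ℤ) : ZMod (P q)) = 1 := by
      rw [← Int.cast_mul, ← Units.val_mul, Int.units_mul_self]
      simp
    calc act (P q) g⁻¹ (Pi.single i 1) = (1 : ZMod (P q)) • act (P q) g⁻¹ (Pi.single i 1) := by
          rw [one_smul]
      _ = (((ε q : ℤˣ) : ℤ) : ZMod (P q)) • ((((ε q : ℤˣ) : ℤ) : ZMod (P q)) •
          act (P q) g⁻¹ (Pi.single i 1)) := by rw [smul_smul, h2]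
      _ = _ := by rw [h1]

/-- the index is at most the number of vectors -/
lemma KE_mem (i : Fin n) (P : ι → ℕ) (hP : ∀ q, P q ≠ 0) (E : Subgroup (ι → ℤˣ)) {x : ℕ}
    (hx : (∏ q, P q) ^ n ≤ x) : KE i P E ∈ Sub (SLZ n) x := by
  haveI : ∀ q, NeZero (P q) := fun q => ⟨hP q⟩
  let f : SLZ n ⧸ KE i P E → (∀ q, Fin n → ZMod (P q)) := fun c q =>
    act (P q) c.out (Pi.single i 1)
  have hf : Injective f := by
    intro c c' h
    rw [← Quotient.out_eq' c, ← Quotient.out_eq' c']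
    refine QuotientGroup.eq.2 ?_
    refine ⟨1, E.one_mem, fun q => ?_⟩
    have h1 := congrFun h q
    rw [act_mul]
    show act (P q) c.out⁻¹ (act (P q) c'.out (Pi.single i 1)) = _
    have h2 : act (P q) c'.out (Pi.single i 1) = act (P q) c.out (Pi.single i 1) := h1.symm
    rw [h2, ← act_mul, inv_mul_cancel, act_one]
    simp
  haveI : Finite (SLZ n ⧸ KE i P E) := Finite.of_injective f hf
  have h1 := Nat.card_le_card_of_injective f hf
  have h2 : Nat.card (∀ q, Fin n → ZMod (P q)) = (∏ q, P q) ^ n := by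
    rw [Nat.card_pi, ← Finset.prod_pow]
    refine Finset.prod_congr rfl fun q _ => ?_
    rw [Nat.card_fun, Nat.card_zmod, Nat.card_fin]
  refine ⟨Nat.card_pos.ne', ?_⟩
  rw [h2] at h1
  exact h1.trans hx

/-- elements with prescribed signs -/
lemma exists_sign {i j : Fin n} (hij : i ≠ j) (P : ι → ℕ) (hinj : Injective P)
    (hP : ∀ q, (P q).Prime) (ε : ι → ℤˣ) : ∃ g : SLZ n, ∀ q, act (P q) g (Pi.single i 1) =
    (((ε q : ℤˣ) : ℤ) : ZMod (P q)) • (Pi.single i 1 : Fin n → ZMod (P q)) := by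
  classical
  obtain ⟨t, ht⟩ := Nat.chineseRemainderOfFinset (fun q => if ε q = -1 then 1 else 0) P
    Finset.univ (fun q _ => (hP q).ne_zero) (by
      intro q _ q' _ hq
      exact (Nat.coprime_primes (hP q) (hP q')).2 (fun h => hq (hinj h)))
  refine ⟨wt hij (t : ℤ) * wt hij (t : ℤ), fun q => ?_⟩
  have h1 := (ZMod.natCast_eq_natCast_iff _ _ _).2 (ht q (Finset.mem_univ q))
  by_cases h : ε q = -1
  · rw [if_pos h] at h1
    rw [act_wt_one _ _ _ (by rw [Int.cast_natCast, h1, Nat.cast_one]), h]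
    simp
  · rw [if_neg h] at h1
    have h2 : ((t : ℤ) : ZMod (P q)) = 0 := by rw [Int.cast_natCast, h1, Nat.cast_zero]
    rw [act_mul, act_wt_zero _ _ _ h2, act_wt_zero _ _ _ h2]
    rcases Int.units_eq_one_or (ε q) with h3 | h3
    · rw [h3]; simp
    · exact absurd h3 h

lemma sign_inj {p : ℕ} (hp : p.Prime) (h2 : p ≠ 2) {u v : ℤˣ}
    (h : ((u : ℤ) : ZMod p) = ((v : ℤ) : ZMod p)) : u = v := by
  have h3 : (2 : ZMod p) ≠ 0 := by
    intro h4
    have h5 : ((2 : ℕ) : ZMod p) = 0 := by exact_mod_cast h4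
    rw [ZMod.natCast_eq_zero_iff] at h5
    exact h2 ((Nat.prime_dvd_prime_iff_eq hp Nat.prime_two).1 h5)
  haveI : Fact p.Prime := ⟨hp⟩
  rcases Int.units_eq_one_or u with hu | hu <;> rcases Int.units_eq_one_or v with hv | hv
  · rw [hu, hv]
  · exfalso
    rw [hu, hv] at h
    push_cast at h
    apply h3
    linear_combination h
  · exfalso
    rw [hu, hv] at h
    push_cast at h
    apply h3
    linear_combination -h
  · rw [hu, hv]

lemma KE_inj {i j : Fin n} (hij : i ≠ j) (P : ι → ℕ) (hinj : Injective P)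
    (hP : ∀ q, (P q).Prime ∧ P q ≠ 2) : Injective (KE (n := n) i P) := by
  have key : ∀ E E' : Subgroup (ι → ℤˣ), KE i P E = KE i P E' → E ≤ E' := by
    intro E E' h ε hε
    obtain ⟨g, hg⟩ := exists_sign hij P hinj (fun q => (hP q).1) ε
    have h1 : g ∈ KE i P E := ⟨ε, hε, hg⟩
    rw [h] at h1
    obtain ⟨δ, hδ, hg'⟩ := h1
    have h2 : ε = δ := by
      funext q
      refine sign_inj (hP q).1 (hP q).2 ?_
      have h3 := (hg q).symm.trans (hg' q)
      have h4 := congrFun h3 i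
      simpa using h4
    rw [h2]
    exact hδ
  intro E E' h
  exact le_antisymm (key E E' h) (key E' E h.symm)

/-- graphs -/
def GE {a : ℕ} (c : Fin a → Fin a → Bool) : Subgroup (Fin a ⊕ Fin a → ℤˣ) where
  carrier := {ε | ∀ q, ε (Sum.inr q) = ∏ p, ε (Sum.inl p) ^ (c p q).toNat}
  mul_mem' := by
    intro ε δ hε hδ q
    rw [Pi.mul_apply, hε q, hδ q, ← Finset.prod_mul_distrib]
    refine Finset.prod_congr rfl fun p _ => ?_
    rw [Pi.mul_apply, mul_pow]
  one_mem' := by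
    intro q
    simp
  inv_mem' := by
    intro ε hε q
    rw [Pi.inv_apply, hε q, ← Finset.prod_inv_distrib]
    refine Finset.prod_congr rfl fun p _ => ?_
    rw [Pi.inv_apply, inv_pow]

lemma GE_inj {a : ℕ} : Injective (GE (a := a)) := by
  intro c c' h
  funext p₀ q
  let ε : Fin a ⊕ Fin a → ℤˣ := Sum.elim (fun p => if p = p₀ then -1 else 1)
    (fun q => (-1) ^ (c p₀ q).toNat)
  have hprod : ∀ (d : Fin a → Fin a → Bool) (q : Fin a),
      ∏ p, ε (Sum.inl p) ^ (d p q).toNat = (-1) ^ (d p₀ q).toNat := by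
    intro d q
    rw [Finset.prod_eq_single p₀]
    · simp [ε]
    · intro p _ hp
      simp [ε, hp]
    · intro hp
      exact absurd (Finset.mem_univ _) hp
  have h1 : ε ∈ GE c := by
    intro q
    rw [hprod c q]
    simp [ε]
  rw [h] at h1
  have h2 := h1 q
  rw [hprod c' q] at h2
  have h3 : ((-1 : ℤˣ)) ^ (c p₀ q).toNat = (-1) ^ (c' p₀ q).toNat := h2
  cases h4 : c p₀ q <;> cases h5 : c' p₀ q <;> rw [h4, h5] at h3 <;> first | rfl | (exfalso; revert h3; decide)

/-- many subgroups -/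
lemma num_ge (hn : 2 ≤ n) {a : ℕ} (P : Fin a ⊕ Fin a → ℕ) (hinj : Injective P)
    (hP : ∀ q, (P q).Prime ∧ P q ≠ 2) {x : ℕ} (hx : (∏ q, P q) ^ n ≤ x) :
    2 ^ (a * a) ≤ num (SLZ n) x := by
  let i : Fin n := ⟨0, by omega⟩
  let j : Fin n := ⟨1, by omega⟩
  have hij : i ≠ j := by
    intro h
    have := congrArg Fin.val h
    simp [i, j] at this
  haveI : Finite (Sub (SLZ n) x) := (sub_finite (fg_SLZ n) x).to_subtype
  let f : (Fin a → Fin a → Bool) → Sub (SLZ n) x := fun c =>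
    ⟨KE i P (GE c), KE_mem i P (fun q => (hP q).1.ne_zero) _ hx⟩
  have hf : Injective f := by
    intro c c' h
    exact GE_inj (KE_inj hij P hinj hP (congrArg Subtype.val h))
  have h1 := Nat.card_le_card_of_injective f hf
  have h2 : Nat.card (Fin a → Fin a → Bool) = 2 ^ (a * a) := by
    rw [Nat.card_fun, Nat.card_fun, Nat.card_fin, Nat.card_eq_fintype_card, Fintype.card_bool,
      ← pow_mul]
  rw [h2] at h1
  exact h1

/-- **`SL(n,ℤ)` does not have polynomial subgroup growth.** -/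
theorem growth (hn : 2 ≤ n) (C e : ℕ) : ∃ x, C * x ^ e < num (SLZ n) x := by
  obtain ⟨a, N, P, hinj, hP, hprod, hN, hK⟩ := exists_primes (C + 2 * n * e)
  refine ⟨(4 ^ N) ^ n, ?_⟩
  have h1 := num_ge hn P hinj hP (x := (4 ^ N) ^ n) (Nat.pow_le_pow_left hprod n)
  refine lt_of_lt_of_le ?_ h1
  calc C * ((4 ^ N) ^ n) ^ e ≤ 2 ^ C * ((4 ^ N) ^ n) ^ e :=
        Nat.mul_le_mul_right _ Nat.lt_two_pow_self.le
    _ = 2 ^ (C + 2 * n * e * N) := by
        rw [show (4 : ℕ) = 2 ^ 2 by norm_num, ← pow_mul, ← pow_mul, ← pow_mul, ← pow_add]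
        congr 1
        ring
    _ ≤ 2 ^ ((C + 2 * n * e) * N) := by
        refine Nat.pow_le_pow_right (by norm_num) ?_
        rw [add_mul]
        have : C ≤ C * N := Nat.le_mul_of_pos_right _ hN
        omega
    _ < 2 ^ (a * a) := Nat.pow_lt_pow_right (by norm_num) hK

end Pool.Agent.Q134.PR
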