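import Pool.Agent.Q134.PR.Groth

set_option autoImplicit false

/-!
Groups that are virtually onto a free group: factorially many extra subgroups.
-/

namespace Pool.Agent.Q134.PR

open Function Pool.Agent.Q98.DF Pool.Agent.Q98.CG

/-- `Γ` has a subgroup of finite index that maps onto the free group of rank 2 -/
def Large (Γ : Type) [Group Γ] : Prop :=
  ∃ Γ₀ : Subgroup Γ, Γ₀.index ≠ 0 ∧ ∃ f : Γ₀ →* FreeGroup (Fin 2), Surjective f

section free

variable (N : ℕ)

/-- the rotation -/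
def rot : Equiv.Perm (ZMod N) := Equiv.addRight 1

lemma rot_pow (k : ℕ) (a : ZMod N) : (rot N ^ k) a = a + k := by
  induction k with
  | zero => simp
  | succ k ih =>
    rw [pow_succ', Equiv.Perm.mul_apply, ih]
    show a + k + 1 = _
    push_cast
    ring

/-- the action of the free group -/
def psi (τ : Equiv.Perm (ZMod N)) : FreeGroup (Fin 2) →* Equiv.Perm (ZMod N) :=
  FreeGroup.lift ![rot N, τ]

lemma psi_zero (τ : Equiv.Perm (ZMod N)) : psi N τ (FreeGroup.of 0) = rot N := by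
  unfold psi
  rw [FreeGroup.lift_apply_of]
  rfl

lemma psi_one (τ : Equiv.Perm (ZMod N)) : psi N τ (FreeGroup.of 1) = τ := by
  unfold psi
  rw [FreeGroup.lift_apply_of]
  rfl

/-- the stabilizer -/
def stabF (τ : Equiv.Perm (ZMod N)) : Subgroup (FreeGroup (Fin 2)) where
  carrier := {w | psi N τ w 0 = 0}
  mul_mem' := by
    intro a b ha hb
    have ha' : psi N τ a 0 = 0 := ha
    have hb' : psi N τ b 0 = 0 := hb
    show psi N τ (a * b) 0 = 0
    rw [map_mul, Equiv.Perm.mul_apply, hb', ha']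
  one_mem' := by
    show psi N τ 1 0 = 0
    rw [map_one]
    rfl
  inv_mem' := by
    intro a ha
    have ha' : psi N τ a 0 = 0 := ha
    show psi N τ a⁻¹ 0 = 0
    rw [map_inv, Equiv.Perm.inv_eq_iff_eq]
    exact ha'.symm

lemma mem_stabF (τ : Equiv.Perm (ZMod N)) (w : FreeGroup (Fin 2)) :
    w ∈ stabF N τ ↔ psi N τ w 0 = 0 := Iff.rfl

lemma stabF_mem [NeZero N] (τ : Equiv.Perm (ZMod N)) : stabF N τ ∈ Sub (FreeGroup (Fin 2)) N := by
  let f : FreeGroup (Fin 2) ⧸ stabF N τ → ZMod N := fun c => psi N τ c.out 0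
  have hf : Injective f := by
    intro c c' h
    rw [← Quotient.out_eq' c, ← Quotient.out_eq' c']
    refine QuotientGroup.eq.2 ?_
    have h1 : psi N τ c.out 0 = psi N τ c'.out 0 := h
    show psi N τ (c.out⁻¹ * c'.out) 0 = 0
    rw [map_mul, Equiv.Perm.mul_apply, ← h1, map_inv, Equiv.Perm.inv_eq_iff_eq]
  have h0 : Finite (FreeGroup (Fin 2) ⧸ stabF N τ) := Finite.of_injective f hf
  have h1 := Nat.card_le_card_of_injective f hf
  rw [Nat.card_zmod] at h1
  exact ⟨Nat.card_pos.ne', h1⟩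

lemma stabF_inj [NeZero N] : Injective (stabF N) := by
  intro τ τ' h
  ext i
  set j := τ i with hj
  let w : FreeGroup (Fin 2) :=
    (FreeGroup.of 0 ^ (j.val))⁻¹ * (FreeGroup.of 1 * FreeGroup.of 0 ^ (i.val))
  have hw : ∀ ρ : Equiv.Perm (ZMod N), psi N ρ w 0 = 0 ↔ ρ i = j := by
    intro ρ
    have h1 : psi N ρ w = (rot N ^ j.val)⁻¹ * (ρ * rot N ^ i.val) := by
      show psi N ρ ((FreeGroup.of 0 ^ (j.val))⁻¹ * (FreeGroup.of 1 * FreeGroup.of 0 ^ (i.val))) = _
      rw [map_mul, map_mul, map_inv, map_pow, map_pow, psi_zero, psi_one]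
    rw [h1, Equiv.Perm.mul_apply, Equiv.Perm.mul_apply, Equiv.Perm.inv_eq_iff_eq, rot_pow,
      rot_pow, zero_add, zero_add, ZMod.natCast_zmod_val, ZMod.natCast_zmod_val]
  have h1 : w ∈ stabF N τ := (hw τ).2 rfl
  rw [h] at h1
  have h2 := (hw τ').1 h1
  rw [h2]

end free

variable {Γ Λ : Type} [Group Γ] [Group Λ]

/-- a large group has factorially many subgroups -/
lemma large_num (hΓ : Group.FG Γ) {Γ₀ : Subgroup Γ} (h0 : Γ₀.index ≠ 0)
    (f : Γ₀ →* FreeGroup (Fin 2)) (hf : Surjective f) (N : ℕ) (hN : 1 ≤ N) {x : ℕ}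
    (hx : Γ₀.index * N ≤ x) : N.factorial ≤ num Γ x := by
  haveI : NeZero N := ⟨by omega⟩
  have hfin : Finite (Sub Γ x) := (sub_finite hΓ x).to_subtype
  let g : Equiv.Perm (ZMod N) → Sub Γ x := fun τ =>
    ⟨((stabF N τ).comap f).map Γ₀.subtype, by
      have h1 := stabF_mem N τ
      have h2 : ((stabF N τ).comap f).index = (stabF N τ).index :=
        Subgroup.index_comap_of_surjective _ hf
      have h3 : (((stabF N τ).comap f).map Γ₀.subtype).index = (stabF N τ).index * Γ₀.index := by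
        rw [Subgroup.index_map_subtype, h2]
      refine ⟨?_, ?_⟩
      · rw [h3]
        exact Nat.mul_ne_zero h1.1 h0
      · rw [h3, mul_comm]
        exact (Nat.mul_le_mul_left _ h1.2).trans hx⟩
  have hg : Injective g := by
    intro τ τ' h
    have h1 := congrArg Subtype.val h
    have h2 := Subgroup.map_injective Γ₀.subtype_injective h1
    exact stabF_inj N (Subgroup.comap_injective hf h2)
  have h1 := Nat.card_le_card_of_injective g hg
  rw [Nat.card_perm, Nat.card_zmod] at h1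
  exact h1

lemma large_factorial (hΓ : Group.FG Γ) (h : Large Γ) :
    ∃ m : ℕ, 1 ≤ m ∧ ∀ x, m ≤ x → (x / m).factorial ≤ num Γ x := by
  obtain ⟨Γ₀, h0, f, hf⟩ := h
  refine ⟨Γ₀.index, by omega, fun x hx => ?_⟩
  exact large_num hΓ h0 f hf (x / Γ₀.index) (Nat.div_pos hx (by omega)) (Nat.mul_div_le _ _)

/-- **Many extra subgroups, second form.** -/
theorem many_extra2 (hΛ : Group.FG Λ) (hΓ : Group.FG Γ) (h : FQle Γ Λ) (Q : Type) [Group Q]
    [Finite Q] (hQ : ∃ f : Λ →* Q, Surjective f) (hQ' : ¬ ∃ f : Γ →* Q, Surjective f) (x y : ℕ)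
    (hxy : Nat.card Q * x ≤ y) :
    num Λ x + num Γ y * ((Nat.card Q * x) ^ Nat.log 2 (Nat.card Q) + 1) ≤
      num Λ y * ((Nat.card Q * x) ^ Nat.log 2 (Nat.card Q) + 1) := by
  obtain ⟨φ, hφ, hcomp⟩ := exists_system hΛ hΓ h
  let P : Subgroup Λ → Prop := fun K => ∃ x, (φ x).ker ≤ K
  have hP : ∀ H H', P H → H ≤ H' → P H' := fun H H' ⟨x, hx⟩ hH => ⟨x, hx.trans hH⟩
  have hset : ∀ (R : Subgroup Λ → Prop) (x : ℕ),
      {H : Subgroup Λ | ⊥ ≤ H ∧ R H ∧ H.index ≠ 0 ∧ H.index ≤ x} = {K ∈ Sub Λ x | R K} := by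
    intro R x
    ext K
    constructor
    · rintro ⟨_, h1, h2, h3⟩
      exact ⟨⟨h2, h3⟩, h1⟩
    · rintro ⟨⟨h2, h3⟩, h1⟩
      exact ⟨bot_le, h1, h2, h3⟩
  have hcnt : ∀ (R : Subgroup Λ → Prop) (x : ℕ),
      cnt (⊥ : Subgroup Λ) R x = (({K ∈ Sub Λ x | R K}.ncard : ℕ) : ℕ∞) := by
    intro R x
    unfold cnt
    rw [hset, Set.Finite.cast_ncard_eq ((sub_finite hΛ x).subset fun K hK => hK.1)]
  have hsum : ∀ x, {K ∈ Sub Λ x | P K}.ncard + {K ∈ Sub Λ x | ¬ P K}.ncard = num Λ x := by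
    intro x
    unfold num
    rw [← Set.ncard_union_eq (by
      rw [Set.disjoint_left]
      intro K hK hK'
      exact hK'.2 hK.2) ((sub_finite hΛ x).subset fun K hK => hK.1)
      ((sub_finite hΛ x).subset fun K hK => hK.1)]
    congr 1
    ext K
    constructor
    · rintro (hK | hK)
      · exact hK.1
      · exact hK.1
    · intro hK
      by_cases h : P K
      · exact Or.inl ⟨hK, h⟩
      · exact Or.inr ⟨hK, h⟩
  have hmono : ∀ {a b : ℕ}, a ≤ b →
      {K ∈ Sub Λ a | ¬ P K}.ncard ≤ {K ∈ Sub Λ b | ¬ P K}.ncard := fun hab =>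
    Set.ncard_le_ncard (fun K hK => ⟨sub_mono hab hK.1, hK.2⟩)
      ((sub_finite hΛ _).subset fun K hK => hK.1)
  obtain ⟨f, hf⟩ := hQ
  have hidx : f.ker.index = Nat.card Q := by
    rw [Subgroup.index_ker, MonoidHom.range_eq_top.2 hf, Nat.card_congr Subgroup.topEquiv.toEquiv]
  have hd : 1 ≤ Nat.card Q := Nat.card_pos
  have hnP : ¬ P f.ker := by
    rintro ⟨z, hz⟩
    apply hQ'
    obtain ⟨g, hg⟩ := factor (φ z) (hφ z) f hf hz
    exact ⟨g.comp (QuotientGroup.mk' _), hg.comp (QuotientGroup.mk'_surjective _)⟩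
  have hmany := many (⊥ : Subgroup Λ) P hP (N := f.ker) bot_le
    (by rw [hidx]; exact Nat.card_pos.ne') hnP x
  rw [hcnt, hcnt, hidx] at hmany
  set z := (Nat.card Q * x) ^ Nat.log 2 (Nat.card Q) with hz
  have h0 : {K ∈ Sub Λ x | P K}.ncard ≤ {K ∈ Sub Λ (Nat.card Q * x) | ¬ P K}.ncard * z := by
    exact_mod_cast hmany
  have h2 := num_le hΛ (φ y) (hφ y) (P := P) (fun K hK => ⟨y, hK⟩)
  have h3 := hsum y
  have h3' := hsum x
  have h4 : {K ∈ Sub Λ y | ¬ P K}.ncard + num Γ y ≤ num Λ y := by omega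
  have h5 : {K ∈ Sub Λ x | P K}.ncard ≤ {K ∈ Sub Λ y | ¬ P K}.ncard * z :=
    h0.trans (Nat.mul_le_mul_right _ (hmono hxy))
  have h6 : {K ∈ Sub Λ x | ¬ P K}.ncard ≤ {K ∈ Sub Λ y | ¬ P K}.ncard :=
    hmono ((Nat.le_mul_of_pos_left _ hd).trans hxy)
  have h7 := Nat.mul_le_mul_right (z + 1) h4
  rw [add_mul, mul_add _ z 1, mul_one] at h7
  omega

lemma fact_ineq (k L n y : ℕ) (hy : y < k * (n + 1)) (hn : k + 2 * L + 2 ≤ n) :
    n.factorial * (y ^ L + 1) ≤ (2 * n).factorial := by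
  have h1 : n.factorial * (n + 1) ^ n ≤ (n + n).factorial := Nat.factorial_mul_pow_le_factorial
  rw [← two_mul] at h1
  refine (Nat.mul_le_mul_left _ ?_).trans h1
  have h2 : y ^ L ≤ (n + 1) ^ (2 * L) := by
    rw [pow_mul]
    refine Nat.pow_le_pow_left ?_ L
    rw [sq]
    exact hy.le.trans (Nat.mul_le_mul_right _ (by omega))
  have h3 : 1 ≤ (n + 1) ^ (2 * L) := Nat.one_le_pow _ _ (by omega)
  have h4 : (n + 1) ^ (2 * L + 1) ≤ (n + 1) ^ n := Nat.pow_le_pow_right (by omega) (by omega)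
  have h5 : (n + 1) ^ (2 * L) * 2 ≤ (n + 1) ^ (2 * L + 1) := by
    rw [pow_succ]
    exact Nat.mul_le_mul_left _ (by omega)
  omega

/-- **factorially many extra subgroups** -/
theorem far {A B : Type} [Group A] [Group B] (hA : Group.FG A) (hB : Group.FG B) (h : FQle A B)
    (h' : ¬ FQle B A) (hnum : ∃ m : ℕ, 1 ≤ m ∧ ∀ x, m ≤ x → (x / m).factorial ≤ num B x) :
    ∃ k : ℕ, 1 ≤ k ∧ ∃ Y : ℕ, ∀ y ≥ Y, num A y + (y / k).factorial ≤ num B y := by
  unfold FQle at h'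
  push Not at h'
  obtain ⟨Q, _, _, hQ, hQ'⟩ := h'
  obtain ⟨m, hm, hm2⟩ := hnum
  set d := Nat.card Q with hd
  have hd1 : 1 ≤ d := Nat.card_pos
  set L := Nat.log 2 d with hL
  set k := 2 * (d * m) with hk
  have hdm : 1 ≤ d * m := Nat.mul_pos hd1 hm
  refine ⟨k, by omega, k * (k + 2 * L + 2), fun y hy => ?_⟩
  set n := y / k with hn
  have hkpos : 0 < k := by omega
  have hn1 : k + 2 * L + 2 ≤ n := (Nat.le_div_iff_mul_le hkpos).2 (by rw [mul_comm]; exact hy)
  have hy1 : y < k * (n + 1) := by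
    have := Nat.lt_mul_div_succ y hkpos
    exact this
  have hkn : k * n ≤ y := Nat.mul_div_le y k
  set x := y / d with hx
  have hdx : d * x ≤ y := Nat.mul_div_le y d
  have h2n : 2 * n ≤ x / m := by
    rw [hx, Nat.div_div_eq_div_mul]
    refine (Nat.le_div_iff_mul_le hdm).2 ?_
    calc 2 * n * (d * m) = k * n := by rw [hk]; ring
      _ ≤ y := hkn
  have hmx : m ≤ x := by
    have h1 : 1 ≤ x / m := by omega
    exact (Nat.one_le_div_iff (by omega)).1 h1
  have h1 := many_extra2 hB hA h Q hQ (by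
    rintro ⟨f, hf⟩
    exact hQ' f hf) x y hdx
  rw [← hd, ← hL] at h1
  have h2 : (2 * n).factorial ≤ num B x := (Nat.factorial_le h2n).trans (hm2 x hmx)
  have h3 := fact_ineq k L n y hy1 hn1
  have h4 : (d * x) ^ L ≤ y ^ L := Nat.pow_le_pow_left hdx L
  have h5 : n.factorial * ((d * x) ^ L + 1) ≤ n.factorial * (y ^ L + 1) :=
    Nat.mul_le_mul_left _ (by omega)
  have h6 : (num A y + n.factorial) * ((d * x) ^ L + 1) ≤ num B y * ((d * x) ^ L + 1) := by
    rw [add_mul]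
    omega
  exact Nat.le_of_mul_le_mul_right h6 (by omega)

/-- the numbers of subgroups are not far apart -/
def Close (Δ Γ : Type) [Group Δ] [Group Γ] : Prop :=
  ∀ k : ℕ, 1 ≤ k → ∀ Y : ℕ, ∃ y ≥ Y,
    num Δ y < num Γ y + (y / k).factorial ∧ num Γ y < num Δ y + (y / k).factorial

theorem close_iff {Δ : Type} [Group Δ] (hΔ : Group.FG Δ) (hΓ : Group.FG Γ) (hl : Large Γ)
    (h : FQle Γ Δ ∨ FQle Δ Γ) : SameFQ Δ Γ ↔ Close Δ Γ := by
  have hnum := large_factorial hΓ hl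
  constructor
  · intro hs k _ Y
    refine ⟨Y, le_refl _, ?_, ?_⟩ <;> rw [num_eq hΔ hΓ hs] <;>
      exact Nat.lt_add_of_pos_right (Nat.factorial_pos _)
  · intro hc
    rcases h with h | h
    · have h1 : FQle Δ Γ := by
        by_contra hcon
        obtain ⟨m, hm, hm2⟩ := hnum
        obtain ⟨k, hk, Y, hY⟩ := far hΓ hΔ h hcon
          ⟨m, hm, fun x hx => (hm2 x hx).trans (num_mono hΔ hΓ h x)⟩
        obtain ⟨y, hy, hy1, hy2⟩ := hc k hk Y
        have := hY y hy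
        omega
      exact fun Q _ _ => ⟨h1 Q, h Q⟩
    · have h1 : FQle Γ Δ := by
        by_contra hcon
        obtain ⟨k, hk, Y, hY⟩ := far hΔ hΓ h hcon hnum
        obtain ⟨y, hy, hy1, hy2⟩ := hc k hk Y
        have := hY y hy
        omega
      exact fun Q _ _ => ⟨h Q, h1 Q⟩

end Pool.Agent.Q134.PR
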