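import Pool.Agent.Q134.PR.Few

set_option autoImplicit false

/-!
Few extra subgroups: the same finite quotients.
-/

namespace Pool.Agent.Q134.PR

open Function Pool.Agent.Q98.DF Pool.Agent.Q98.CG

variable {Λ Γ : Type} [Group Λ] [Group Γ]

lemma top_mem {G : Type} [Group G] {x : ℕ} (hx : 1 ≤ x) : (⊤ : Subgroup G) ∈ Sub G x :=
  ⟨by rw [Subgroup.index_top]; exact one_ne_zero, by rw [Subgroup.index_top]; exact hx⟩

lemma num_pos (hΓ : Group.FG Γ) {x : ℕ} (hx : 1 ≤ x) : 1 ≤ num Γ x := by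
  unfold num
  exact (Set.ncard_pos (sub_finite hΓ x)).2 ⟨⊤, top_mem hx⟩

/-- More finite quotients, more subgroups. -/
lemma num_mono (hΛ : Group.FG Λ) (hΓ : Group.FG Γ)
    (h : ∀ (Q : Type) [Group Q] [Finite Q], (∃ f : Γ →* Q, Surjective f) → ∃ f : Λ →* Q, Surjective f)
    (x : ℕ) : num Γ x ≤ num Λ x := by
  obtain ⟨φ, hφ, -⟩ := exists_system hΛ hΓ h
  have h1 := num_le hΛ (φ x) (hφ x) (P := fun _ => True) (fun _ _ => trivial)
  refine h1.trans (le_of_eq ?_)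
  unfold num
  congr 1
  ext K
  simp

/-- every finite quotient of `Γ` is a quotient of `Λ` -/
def FQle (Γ Λ : Type) [Group Γ] [Group Λ] : Prop :=
  ∀ (Q : Type) [Group Q] [Finite Q], (∃ f : Γ →* Q, Surjective f) → ∃ f : Λ →* Q, Surjective f

/-- **Many extra subgroups.** -/
theorem many_extra (hΛ : Group.FG Λ) (hΓ : Group.FG Γ) (h : FQle Γ Λ) (Q : Type) [Group Q]
    [Finite Q] (hQ : ∃ f : Λ →* Q, Surjective f) (hQ' : ¬ ∃ f : Γ →* Q, Surjective f) (x : ℕ) :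
    num Γ x + num Γ (Nat.card Q * x) * (Nat.card Q * x) ^ Nat.log 2 (Nat.card Q) ≤
      num Λ (Nat.card Q * x) * (Nat.card Q * x) ^ Nat.log 2 (Nat.card Q) := by
  obtain ⟨φ, hφ, hcomp⟩ := exists_system hΛ hΓ h
  let P : Subgroup Λ → Prop := fun K => ∃ x, (φ x).ker ≤ K
  have hP : ∀ H H', P H → H ≤ H' → P H' := fun H H' ⟨x, hx⟩ hH => ⟨x, hx.trans hH⟩
  have hset : ∀ (R : Subgroup Λ → Prop) (x : ℕ),
      {H : Subgroup Λ | ⊥ ≤ H ∧ R H ∧ H.index ≠ 0 ∧ H.index ≤ x} = {K ∈ Sub Λ x | R K} := by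
    intro R x
    ext K
    constructor
    · rintro ⟨_, h1, h2, h3⟩
      exact ⟨⟨h2, h3⟩, h1⟩
    · rintro ⟨⟨h2, h3⟩, h1⟩
      exact ⟨bot_le, h1, h2, h3⟩
  have hcnt : ∀ (R : Subgroup Λ → Prop) (x : ℕ),
      cnt (⊥ : Subgroup Λ) R x = (({K ∈ Sub Λ x | R K}.ncard : ℕ) : ℕ∞) := by
    intro R x
    unfold cnt
    rw [hset, Set.Finite.cast_ncard_eq ((sub_finite hΛ x).subset fun K hK => hK.1)]
  have hsum : ∀ x, {K ∈ Sub Λ x | P K}.ncard + {K ∈ Sub Λ x | ¬ P K}.ncard = num Λ x := by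
    intro x
    unfold num
    rw [← Set.ncard_union_eq (by
      rw [Set.disjoint_left]
      intro K hK hK'
      exact hK'.2 hK.2) ((sub_finite hΛ x).subset fun K hK => hK.1)
      ((sub_finite hΛ x).subset fun K hK => hK.1)]
    congr 1
    ext K
    constructor
    · rintro (hK | hK)
      · exact hK.1
      · exact hK.1
    · intro hK
      by_cases h : P K
      · exact Or.inl ⟨hK, h⟩
      · exact Or.inr ⟨hK, h⟩
  obtain ⟨f, hf⟩ := hQ
  have hidx : f.ker.index = Nat.card Q := by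
    rw [Subgroup.index_ker, MonoidHom.range_eq_top.2 hf, Nat.card_congr Subgroup.topEquiv.toEquiv]
  have hnP : ¬ P f.ker := by
    rintro ⟨y, hy⟩
    apply hQ'
    let g : Γ ⧸ core Γ y →* Q :=
      (QuotientGroup.lift (φ y).ker f (fun a ha => hy ha)).comp
        (QuotientGroup.quotientKerEquivOfSurjective (φ y) (hφ y)).symm.toMonoidHom
    refine ⟨g.comp (QuotientGroup.mk' _), ?_⟩
    have hg : Surjective g := by
      intro q
      obtain ⟨a, rfl⟩ := hf q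
      refine ⟨QuotientGroup.quotientKerEquivOfSurjective (φ y) (hφ y) (a : Λ ⧸ (φ y).ker), ?_⟩
      show (QuotientGroup.lift (φ y).ker f (fun a ha => hy ha))
        ((QuotientGroup.quotientKerEquivOfSurjective (φ y) (hφ y)).symm
          (QuotientGroup.quotientKerEquivOfSurjective (φ y) (hφ y) (a : Λ ⧸ (φ y).ker))) = f a
      rw [MulEquiv.symm_apply_apply]
      rfl
    exact hg.comp (QuotientGroup.mk'_surjective _)
  have hmany := many (⊥ : Subgroup Λ) P hP (N := f.ker) bot_le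
    (by rw [hidx]; exact Nat.card_pos.ne') hnP x
  rw [hcnt, hcnt, hidx] at hmany
  have h0 : {K ∈ Sub Λ x | P K}.ncard ≤ {K ∈ Sub Λ (Nat.card Q * x) | ¬ P K}.ncard *
      (Nat.card Q * x) ^ Nat.log 2 (Nat.card Q) := by exact_mod_cast hmany
  have h1 := num_le hΛ (φ x) (hφ x) (P := P) (fun K hK => ⟨x, hK⟩)
  have h2 := num_le hΛ (φ (Nat.card Q * x)) (hφ (Nat.card Q * x)) (P := P)
    (fun K hK => ⟨Nat.card Q * x, hK⟩)
  have h3 := hsum (Nat.card Q * x)
  have h4 : {K ∈ Sub Λ (Nat.card Q * x) | ¬ P K}.ncard + num Γ (Nat.card Q * x) ≤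
      num Λ (Nat.card Q * x) := by omega
  have h6 := Nat.mul_le_mul_right ((Nat.card Q * x) ^ Nat.log 2 (Nat.card Q)) h4
  rw [add_mul] at h6
  omega

lemma num_eq (hΛ : Group.FG Λ) (hΓ : Group.FG Γ) (h : SameFQ Λ Γ) (x : ℕ) : num Λ x = num Γ x :=
  le_antisymm (num_mono hΓ hΛ (fun Q _ _ => (h Q).1) x) (num_mono hΛ hΓ (fun Q _ _ => (h Q).2) x)

lemma num_zero (G : Type) [Group G] : num G 0 = 0 := by
  unfold num
  have : Sub G 0 = ∅ := by
    ext K
    simp only [Set.mem_empty_iff_false, iff_false]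
    rintro ⟨h1, h2⟩
    omega
  rw [this, Set.ncard_empty]

lemma num_monotone {G : Type} [Group G] (hG : Group.FG G) : Monotone (num G) := fun x y h =>
  Set.ncard_le_ncard (sub_mono h) (sub_finite hG y)

end Pool.Agent.Q134.PR
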