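import Pool.Agent.Q134.PR.Main
import Pool.Agent.Q98.DF.SLn

set_option autoImplicit false

/-!
Many subgroups of `SL(n,ℤ)`.
-/

namespace Pool.Agent.Q134.PR

open Function Matrix Pool.Agent.Q98.DF Pool.Agent.H185.ZM

variable {n : ℕ}

/-- reduction mod `p` -/
noncomputable abbrev red (p : ℕ) : SLZ n →* Matrix.SpecialLinearGroup (Fin n) (ZMod p) :=
  Matrix.SpecialLinearGroup.map (Int.castRingHom (ZMod p))

/-- the action on vectors mod `p` -/
noncomputable def act (p : ℕ) (g : SLZ n) (v : Fin n → ZMod p) : Fin n → ZMod p := (red p g).1 *ᵥ v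

lemma act_mul (p : ℕ) (g h : SLZ n) (v : Fin n → ZMod p) :
    act p (g * h) v = act p g (act p h v) := by
  unfold act
  rw [map_mul, Matrix.SpecialLinearGroup.coe_mul, Matrix.mulVec_mulVec]

lemma act_one (p : ℕ) (v : Fin n → ZMod p) : act p (1 : SLZ n) v = v := by
  unfold act
  rw [map_one, Matrix.SpecialLinearGroup.coe_one, Matrix.one_mulVec]

lemma act_smul (p : ℕ) (g : SLZ n) (c : ZMod p) (v : Fin n → ZMod p) :
    act p g (c • v) = c • act p g v := by
  unfold act
  rw [Matrix.mulVec_smul]

lemma act_neg (p : ℕ) (g : SLZ n) (v : Fin n → ZMod p) :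
    act p g (-v) = - act p g v := by
  unfold act
  rw [Matrix.mulVec_neg]

lemma act_el (p : ℕ) {i j : Fin n} (h : i ≠ j) (s : ℤ) (v : Fin n → ZMod p) :
    act p (el h s) v = v + Pi.single i ((s : ZMod p) * v j) := by
  have h1 : (red p (el h s)).1 = 1 + single i j (s : ZMod p) := by
    ext a b
    show ((1 + single i j s : Matrix (Fin n) (Fin n) ℤ) a b : ZMod p) = _
    rw [Matrix.add_apply, Matrix.add_apply, Matrix.one_apply, Matrix.one_apply, single_apply,
      single_apply]
    split_ifs <;> simp
  unfold act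
  rw [h1, Matrix.add_mulVec, Matrix.one_mulVec]
  congr 1
  ext a
  rw [Matrix.mulVec, dotProduct]
  rw [Finset.sum_eq_single j]
  · rw [single_apply]
    by_cases ha : i = a
    · subst ha
      simp
    · rw [if_neg (fun h => ha h.1), zero_mul, Pi.single_eq_of_ne (Ne.symm ha)]
  · intro b _ hb
    rw [single_apply, if_neg (fun h => hb h.2.symm), zero_mul]
  · intro hj
    exact absurd (Finset.mem_univ j) hj

/-- the element that is `-1` on the first two coordinates for `t = 1` and trivial for `t = 0` -/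
def wt {i j : Fin n} (h : i ≠ j) (t : ℤ) : SLZ n := el h t * (el h.symm (-t) * el h t)

lemma act_wt_zero (p : ℕ) {i j : Fin n} (h : i ≠ j) (t : ℤ) (ht : (t : ZMod p) = 0)
    (v : Fin n → ZMod p) : act p (wt h t) v = v := by
  unfold wt
  rw [act_mul, act_mul, act_el, act_el, act_el]
  push_cast
  rw [ht]
  simp

lemma act_wt_one (p : ℕ) {i j : Fin n} (h : i ≠ j) (t : ℤ) (ht : (t : ZMod p) = 1) :
    act p (wt h t * wt h t) (Pi.single i 1) = - Pi.single i 1 := by
  have key : ∀ v : Fin n → ZMod p, act p (wt h t) v =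
      v + Pi.single i (v j) + Pi.single j (-(v i + v j)) + Pi.single i (v j + (-(v i + v j))) := by
    intro v
    unfold wt
    rw [act_mul, act_mul, act_el, act_el, act_el]
    push_cast
    rw [ht]
    simp [h, h.symm, Pi.single_eq_of_ne]
  rw [act_mul, key (Pi.single i 1), key]
  ext a
  by_cases hai : a = i
  · subst hai
    simp [h, h.symm]
  · by_cases haj : a = j
    · subst haj
      simp [h, h.symm]
    · simp [hai, haj, h, h.symm]

end Pool.Agent.Q134.PR
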